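import Pool.Agent.Helper58.PB.StZ

/-!
# Module AVE of project PB (short averages)
-/

set_option autoImplicit false

namespace Pool.Agent.Helper79.PB

open Finset ArithmeticFunction
open Pool.Agent.Helper58.PB
open Pool.Agent.Helper48.BK (ex th Sx Apx rr win AdN Admissible Solv Cl thd)
open Pool.Agent.Helper23.GK (cR)
open Pool.Agent.Helper23.MV (PCh PS ZF ZS mwt OKb ta Sc mm Ps Rz mz)

private theorem reindex_AVE (n L : ℕ) (hL : L ≤ n) (f : ℕ → ℂ) :
    ∑ k ∈ Ioc (n - L) (n - L + L), f k = ∑ j ∈ range L, f (n - j) := by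
  symm
  refine Finset.sum_bij' (fun j _ => n - j) (fun k _ => n - k) ?_ ?_ ?_ ?_ ?_
  · intro j hj
    rw [mem_range] at hj
    rw [mem_Ioc]
    omega
  · intro k hk
    rw [mem_Ioc] at hk
    rw [mem_range]
    omega
  · intro j hj
    rw [mem_range] at hj
    show n - (n - j) = j
    omega
  · intro k hk
    rw [mem_Ioc] at hk
    show n - (n - k) = k
    omega
  · intro j _
    rfl

theorem hAve (hInt : StInt) : StAve := by
  obtain ⟨η₁, h0, h1, H⟩ := hInt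
  refine ⟨η₁, h0, h1, fun η hη hη1 K hK => ?_⟩
  obtain ⟨C, X0, hC, hX0, H2⟩ := H η hη hη1 K hK
  refine ⟨C, X0, hC, hX0, fun X o c n L hX hok hr hn1 hn2 hL1 hL2 => ?_⟩
  have hsum : n - L + L = n := Nat.sub_add_cancel hL2
  have key := H2 X o c (n - L) L hX hok hr (by rw [hsum]; exact hn1) (by rw [hsum]; exact hn2)
  rw [reindex_AVE n L hL2 (fun k => ((th k : ℝ) : ℂ) * c.ev k - ((mwt o c k : ℝ) : ℂ)), hsum] at key
  have hLpos : (0 : ℝ) < (L : ℝ) := by exact_mod_cast hL1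
  have hLc : (L : ℂ) ≠ 0 := by
    have : L ≠ 0 := by omega
    exact_mod_cast this
  have hrew : Av c L n - (((1 / (L : ℝ)) * ∑ j ∈ range L, mwt o c ((n - j : ℕ) : ℝ) : ℝ) : ℂ)
      = (1 / (L : ℂ)) * ∑ j ∈ range L,
        (((th (n - j) : ℝ) : ℂ) * c.ev (n - j) - ((mwt o c ((n - j : ℕ) : ℝ) : ℝ) : ℂ)) := by
    unfold Av
    push_cast
    rw [Finset.sum_sub_distrib, mul_sub]
  rw [hrew, norm_mul]
  have hnorm : ‖(1 / (L : ℂ))‖ = 1 / (L : ℝ) := by
    rw [norm_div, norm_one, Complex.norm_natCast]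
  rw [hnorm]
  calc 1 / (L : ℝ) * ‖∑ j ∈ range L,
        (((th (n - j) : ℝ) : ℂ) * c.ev (n - j) - ((mwt o c ((n - j : ℕ) : ℝ) : ℝ) : ℂ))‖
      ≤ 1 / (L : ℝ) * (C * (L * ZS o c (2 * η) X (√X) + (n : ℝ) * X ^ (-(η / 10)))) := by
        apply mul_le_mul_of_nonneg_left key (by positivity)
    _ = C * (ZS o c (2 * η) X (√X) + (n : ℝ) / L * X ^ (-(η / 10))) := by
        field_simp

end Pool.Agent.Helper79.PB
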